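import Mathlib
import Pool.Agent.E8helper33.AH.Main2
import Pool.Agent.E8helper33.AH.Zeta

/-!
# Clozel's conjecture for descents of Artin type: matching outside a sparse set of primes

`E/K` is a Galois extension of number fields with group `G`, `S` a finite set of places of `K` (which
contains the ramified ones), `frob v` a Frobenius element of `v ∉ S` (`IsFrob`), and `ρ` an
irreducible complex representation of `G` of degree `n`. The case of the problem is `K = ℚ`.

`Descent`: `π` is the cuspidal representation of `GL(n)` over `K` with central character `det ρ` whose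
base change to the cyclic extension `K_η / K` cut out by the character `η` of prime order `l` belongs
to the restriction of `ρ`. It exists by Arthur and Clozel if this restriction is automorphic, for
instance if the kernel of `η` is nilpotent. `α` are its Satake parameters.

`Π = π ⊗ |det| ^ ((1 - n) / 2)` is algebraic with `w = 1 - n`. The motive of Clozel's conjecture for `Π`
can only be the Artin motive of `ρ`: the realizations of the motive agree with `ρ` on the absolute
Galois group of `K_η`, where `ρ` is irreducible because `n` is prime to `l`, and they have the same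
determinant. Condition (2) of the conjecture at a place `v ∉ S` says that the Satake parameters `α v`
are the eigenvalues of `ρ (frob v)`, and `Mismatch` is the set of the `v ∉ S` at which this is false.

All L-functions are without the Euler factors at `S`, given for `Re s > 1` by Artin's series
`exp (∑_{v ∉ S} ∑_{k ≥ 1} χ(frob v ^ k) / (k N(v) ^ (k s)))` (`Continues`).

* `ArtinSide`: `D(s) = L(s, ρ ⊗ ρ^*)` and `L(s, ρ ⊗ ρ^* ⊗ η)`.
* `Descent`: `R(s) = L(s, π × π~)` and `L(s, π × π~ ⊗ η)`.
* `Twist`: L-functions of `ρ ⊗ T` and `π ⊗ T`, for instance with a unitary Hecke character `T`, or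
  with `T = 1`, when they are `L(s, ρ)` and `L(s, π)`; only the second is known to be holomorphic.
* `Controls β`: all poles `s`, `Re s > 0`, of all these L-functions of `ρ ⊗ T` lie in `Re s ≤ β`, and in
  `Re s ≥ 1 - β` if the functional equation holds (`Symmetric`).
-/

set_option autoImplicit false

namespace Pool.Agent.Results.MP_7742d9_nt.SparseMismatchH33

open NumberField IsDedekindDomain Pool.Agent.E8helper33.AH

/-- `D = L(s, ρ ⊗ ρ^*)` and `R = L(s, π × π~)` are meromorphic at `0`, and the order of `R` at `0` is not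
less than the order of `D`. This holds by the functional equations: the order of `D` at `0` is
`-1 + ∑ dim Hom(ρ_v, ρ_v)`, the sum over the `v ∈ S` and the infinite places, that of `R` is
`-1 + ∑ dim Hom(φ_v, φ_v)`, with the Langlands parameter `φ_v` of `π_v`. As `φ_v` and `ρ_v` agree on the
kernel of `η`, and `φ_v(w) ^ l` is conjugate to `ρ_v(w) ^ l`, one has `|tr φ_v(w)| ≥ 1 = |tr ρ_v(w)|` if
`η(w) ≠ 1`, in the situation of the theorem, so that `dim Hom(φ_v, φ_v) ≥ dim Hom(ρ_v, ρ_v)`. -/
structure OrdersAtZero (D R : ℂ → ℂ) : Prop where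
  mero : MeromorphicAt D 0
  mero' : MeromorphicAt R 0
  le : meromorphicOrderAt D 0 ≤ meromorphicOrderAt R 0

/-- **The theorem.** Let `l` be `2` or `3`, let `n` be prime to `l`, and suppose that `ρ(g)⁴` (if `l = 2`)
or `ρ(g)³` (if `l = 3`) is a scalar for all `g` with `η(g) ≠ 1`. Then there is a real number
`0 ≤ β < 1` such that either `β = 0`, or `β` is a zero of `L(s, ρ ⊗ ρ^*)`, for `l = 3` a zero of order
at least two, and such that:

1. the Satake parameters of `π` are the eigenvalues of `ρ` at all places outside `S` and a set `X` of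
  places with `∑_{v ∈ X} N(v)^{-σ} < ∞` and `#{v ∈ X, N(v) ≤ x} ≤ C(σ) x^σ` for all `σ > β`;
2. all poles `s`, `Re s > 0`, of the L-functions of `ρ` and of all its twists have `Re s ≤ β`, and
  `Re s ≥ 1 - β` by the functional equation;
3. if `l = 3` and `L(s, ρ ⊗ ρ^*)` is the zeta function of a number field `M ≠ ℚ` up to Euler factors,
  then `β ≤ 1 - 2 (√2 - 1)² / log |d_M|`;
4. if `L(s, ρ ⊗ ρ^*)` has no zeros in `[1/2, 1)` (for `l = 3`: no multiple zeros), then the Satake
  parameters of `π` are the eigenvalues of `ρ` at all places outside `S`, and the L-functions of `ρ`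
  and of all its twists have no poles in `Re s > 0`. -/
theorem result (K E : Type) [Field K] [NumberField K] [Field E] [NumberField E] [Algebra K E]
    [IsGalois K E] (S : Set (HeightOneSpectrum (𝓞 K))) (_hS : S.Finite)
    (frob : Pl S → (E ≃ₐ[K] E)) (_hfrob : ∀ v, IsFrob v.1 (frob v))
    (n : ℕ) (ρ : Representation ℂ (E ≃ₐ[K] E) (Fin n → ℂ)) [ρ.IsIrreducible]
    (l : ℕ) (hl : l = 2 ∨ l = 3) (η : (E ≃ₐ[K] E) →* ℂˣ) (hη : ∀ g, η g ^ l = 1) (hn : ¬ l ∣ n)
    (hρ : ∀ g, η g ≠ 1 → ∃ μ : ℂ, ρ g ^ (if l = 2 then 4 else 3) = μ • 1)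
    (D D' : ℂ → ℂ) (hA : ArtinSide frob ρ η D D')
    (α : Pl S → Fin n → ℂ) (R R' : ℂ → ℂ) (hB : Descent frob ρ η l α R R') :
    ∃ β : ℝ, 0 ≤ β ∧ β < 1 ∧
      (β = 0 ∨ (((l : ℤ) - 1 : ℤ) : WithTop ℤ) ≤ meromorphicOrderAt D (β : ℂ)) ∧
      (∀ σ : ℝ, β < σ →
        (Summable fun v : Mismatch frob ρ α => (nrm v.1 : ℝ) ^ (-σ)) ∧
        ∃ C : ℝ, ∀ x : ℝ, 1 ≤ x → {v : Pl S | v ∈ Mismatch frob ρ α ∧ (nrm v : ℝ) ≤ x}.Finite ∧
          ({v : Pl S | v ∈ Mismatch frob ρ α ∧ (nrm v : ℝ) ≤ x}.ncard : ℝ) ≤ C * x ^ σ) ∧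
      Controls frob ρ α β ∧
      (∀ (M : Type) [Field M] [NumberField M], l = 3 → 1 < Module.finrank ℚ M → IsZetaUpTo M D →
        2 * (Real.sqrt 2 - 1) ^ 2 ≤ (1 - β) * Real.log (((discr M).natAbs : ℕ) : ℝ)) ∧
      (Symmetric D → OrdersAtZero D R →
        (∀ x : ℝ, 1 / 2 ≤ x → x < 1 →
          ¬ (((l : ℤ) - 1 : ℤ) : WithTop ℤ) ≤ meromorphicOrderAt D (x : ℂ)) →
        (∀ v, Finset.univ.val.map (α v) = (ρ (frob v)).charpoly.roots) ∧
        ∀ (t : Pl S → ℕ → ℂ) (m : ℝ) (L P : ℂ → ℂ), Twist frob ρ α t m L P →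
          ∀ s : ℂ, 0 < s.re → 0 ≤ meromorphicOrderAt L s) := by
  have hsc : ∀ g, η g ≠ 1 → ∃ μ : ℂ, ρ g ^ expo l = μ • 1 := by
    intro g hg
    obtain ⟨μ, hμ⟩ := hρ g hg
    refine ⟨μ, ?_⟩
    rcases hl with rfl | rfl
    · exact hμ
    · exact hμ
  obtain ⟨β, h0, h1, h2, h3, h4, h5⟩ := main2 hl hη hn hsc hA hB
  have hcast : (((l - 1 : ℕ) : ℤ)) = (l : ℤ) - 1 := by
    rcases hl with rfl | rfl <;> rfl
  rw [hcast] at h2
  refine ⟨β, h0, h1, ?_, fun σ hσ => ⟨h4 σ hσ, count_of_summable (lt_of_le_of_lt h0 hσ) (h4 σ hσ)⟩,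
    h3, ?_, ?_⟩
  · rcases h0.eq_or_lt with h6 | h6
    · exact Or.inl h6.symm
    · exact Or.inr (h2 h6)
  · rintro M _ _ rfl hM hD
    exact beta_bound hM hA.square.mero hD h0 h1 h2
  · intro hsym hzero hno
    have hβ : β = 0 := by
      by_contra hne
      have hpos : 0 < β := lt_of_le_of_ne h0 (Ne.symm hne)
      rcases le_or_gt (1 / 2) β with h6 | h6
      · exact hno β h6 h1 (h2 hpos)
      · have h7 := hsym (β : ℂ) (by rwa [Complex.ofReal_re]) (by rwa [Complex.ofReal_re])
        have h8 : (1 - (starRingEnd ℂ) (β : ℂ)) = ((1 - β : ℝ) : ℂ) := by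
          rw [Complex.conj_ofReal]
          push_cast
          rfl
        rw [h8] at h7
        refine hno (1 - β) (by linarith) (by linarith) ?_
        rw [← h7]
        exact h2 hpos
    have hem := h5 hβ hzero.mero hzero.mero' hzero.le
    refine ⟨fun v => ?_, fun t m L P T s hs => ?_⟩
    · by_contra hv
      have h6 : v ∈ Mismatch frob ρ α := hv
      rw [hem] at h6
      exact h6
    · by_contra hcon
      push Not at hcon
      have h6 := (h3 t m L P T s hs hcon).1
      rw [hβ] at h6
      linarith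

end Pool.Agent.Results.MP_7742d9_nt.SparseMismatchH33
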